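import Pool.Agent.H17.FR.Targets

/-! Modules DUV, MGE, CIJ and LCF of fr_modules (helper88), first part. -/

namespace Pool.Agent.H88.FRM

open SC FR

section

variable {k K : Type} [Field k] [Field K] [Algebra k K]

lemma wed_mem_span (W : Submodule k K) {u v : K} (hu : u ∈ W) (hv : v ∈ W) :
    wed k u v ∈ Submodule.span k {η | ∃ u ∈ W, ∃ v ∈ W, η = wed k u v} :=
  Submodule.subset_span ⟨u, hu, v, hv, rfl⟩

lemma smul_wed_mem (W : Submodule k K) {n : ℕ} {b u v : K} (hb : b ∈ W ^ n) (hu : u ∈ W)
    (hv : v ∈ W) : b • wed k u v ∈ MM W n :=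
  Submodule.smul_mem_smul hb (wed_mem_span W hu hv)

lemma pow_smul_MM (W : Submodule k K) (m n : ℕ) : W ^ m • MM W n = MM W (m + n) := by
  unfold MM
  rw [← Submodule.smul_assoc, pow_add]
  rfl

lemma smul_mem_MM (W : Submodule k K) {m n : ℕ} {b : K} {η : Ω[K⁄k]} (hb : b ∈ W ^ m)
    (hη : η ∈ MM W n) : b • η ∈ MM W (m + n) := by
  rw [← pow_smul_MM]
  exact Submodule.smul_mem_smul hb hη

lemma duv_aux (W : Submodule k K) (y : K) (hy : y ∈ W) (n : ℕ) :
    ∀ v ∈ W ^ (n + 1), y • KaehlerDifferential.D k K v -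
      ((n + 1 : ℕ) : K) • v • KaehlerDifferential.D k K y ∈ MM W n := by
  induction n with
  | zero =>
    intro v hv
    rw [pow_one] at hv
    have h := smul_wed_mem W (n := 0) (b := 1) (by rw [pow_zero]; exact Submodule.one_le.1 le_rfl) hy hv
    rw [one_smul] at h
    simpa [wed] using h
  | succ n ih =>
    intro v hv
    rw [pow_succ'] at hv
    refine Submodule.mul_induction_on hv (fun v1 h1 v' h' => ?_) fun a b ha hb => ?_
    · have h2 := smul_wed_mem W (n := n + 1) h' hy h1
      have h3 := smul_mem_MM W (m := 1) (by rw [pow_one]; exact h1) (ih v' h')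
      rw [add_comm 1 n] at h3
      have h4 := Submodule.add_mem _ h2 h3
      convert h4 using 1
      rw [Derivation.leibniz, wed]
      simp only [smul_sub, smul_add, smul_smul, Nat.cast_add, Nat.cast_one, add_smul,
        add_mul, one_mul]
      rw [mul_comm v' y, mul_comm v' v1, mul_comm y v1,
        show v1 * ((n : K) * v') = (n : K) * (v1 * v') by ring, mul_comm y v']
      simp only [← mul_assoc]
      module
    · have h4 := Submodule.add_mem _ ha hb
      convert h4 using 1
      rw [map_add]
      module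

end

theorem duv : T_DUV := by
  intro k K _ _ _ W y hy hy0 n v hv
  cases n with
  | zero =>
    rw [pow_zero] at hv
    obtain ⟨c, hc⟩ := Submodule.mem_one.1 hv
    have : v / y ^ 0 = algebraMap k K c := by rw [pow_zero, div_one, hc]
    rw [this, Derivation.map_algebraMap, smul_zero]
    exact Submodule.zero_mem _
  | succ n =>
    have h := duv_aux W y hy n v hv
    rw [Nat.add_sub_cancel]
    convert h using 1
    have hyn : y ^ (n + 1) ≠ 0 := pow_ne_zero _ hy0
    have e1 : KaehlerDifferential.D k K v = (v / y ^ (n + 1)) • KaehlerDifferential.D k K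
        (y ^ (n + 1)) + y ^ (n + 1) • KaehlerDifferential.D k K (v / y ^ (n + 1)) := by
      rw [← Derivation.leibniz, div_mul_cancel₀ v hyn]
    rw [e1, Derivation.leibniz_pow, Nat.add_sub_cancel, smul_add]
    rw [← Nat.cast_smul_eq_nsmul K]
    simp only [smul_smul]
    have e2 : y * (v / y ^ (n + 1) * (((n + 1 : ℕ) : K) * y ^ n)) = ((n + 1 : ℕ) : K) * v := by
      field_simp
      ring
    rw [e2, ← pow_succ' y (n + 1)]
    abel

end Pool.Agent.H88.FRM
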