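import Pool.Agent.H88.FRM.DUV

/-! Modules MGE, CIJ and LCF of fr_modules (helper88). -/

namespace Pool.Agent.H88.FRM

open SC FR

section

variable {k K : Type} [Field k] [Field K] [Algebra k K]

lemma mon_add (w : Fin 3 → K) (hw : ∀ i, w i ≠ 0) (α β : Fin 3 → ℤ) :
    mon w (α + β) = mon w α * mon w β := by
  unfold mon
  rw [← Finset.prod_mul_distrib]
  exact Finset.prod_congr rfl fun i _ => by rw [Pi.add_apply, zpow_add₀ (hw i)]

lemma mon_single (w : Fin 3 → K) (j : Fin 3) (m : ℤ) : mon w (Pi.single j m) = w j ^ m := by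
  unfold mon
  rw [Finset.prod_eq_single j]
  · rw [Pi.single_eq_same]
  · intro i _ hi
    rw [Pi.single_eq_of_ne hi, zpow_zero]
  · intro h
    exact absurd (Finset.mem_univ j) h

lemma pow_le_span (W : Submodule k K) (w : Fin 3 → K) (n₀ : ℕ)
    (h : W ^ (n₀ + 1) ≤ Submodule.span k (Set.range w) * W ^ n₀) (n : ℕ) (hn : n₀ ≤ n) :
    W ^ (n + 1) ≤ Submodule.span k (Set.range w) * W ^ n := by
  induction n, hn using Nat.le_induction with
  | base => exact h
  | succ n _ ih =>
    calc W ^ (n + 1 + 1) = W * W ^ (n + 1) := pow_succ' W (n + 1)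
      _ ≤ W * (Submodule.span k (Set.range w) * W ^ n) := Submodule.smul_mono le_rfl ih
      _ = Submodule.span k (Set.range w) * (W * W ^ n) := by
          rw [← mul_assoc, mul_comm W, mul_assoc]
      _ = Submodule.span k (Set.range w) * W ^ (n + 1) := by rw [← pow_succ']

/-- the wedge as a bilinear map -/
noncomputable def wedB (k K : Type) [Field k] [Field K] [Algebra k K] :
    K →ₗ[k] K →ₗ[k] Ω[K⁄k] :=
  LinearMap.mk₂ k (fun u v => wed k u v)
    (fun u u' v => by unfold wed; rw [map_add]; module)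
    (fun c u v => by
      unfold wed
      rw [Derivation.map_smul, smul_assoc, smul_sub, smul_comm v c])
    (fun u v v' => by unfold wed; rw [map_add]; module)
    (fun c u v => by
      unfold wed
      rw [Derivation.map_smul, smul_assoc, smul_sub, smul_comm u c])

lemma span_wed_finite (W : Submodule k K) [Module.Finite k W] :
    Module.Finite k (Submodule.span k {η | ∃ u ∈ W, ∃ v ∈ W, η = wed k u v}) := by
  have hW : W.FG := Module.Finite.iff_fg.1 inferInstance
  have h1 : (Submodule.map₂ (wedB k K) W W).FG := hW.map₂ _ hW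
  have h2 : Module.Finite k (Submodule.map₂ (wedB k K) W W) := Module.Finite.iff_fg.2 h1
  refine Submodule.finiteDimensional_of_le (S₂ := Submodule.map₂ (wedB k K) W W) ?_
  rw [Submodule.span_le]
  rintro _ ⟨u, hu, v, hv, rfl⟩
  exact Submodule.apply_mem_map₂ (wedB k K) hu hv

lemma MM_finite (W : Submodule k K) [Module.Finite k W] (n : ℕ) : Module.Finite k (MM W n) := by
  have hW : W.FG := Module.Finite.iff_fg.1 inferInstance
  have hS : (Submodule.span k {η | ∃ u ∈ W, ∃ v ∈ W, η = wed k u v}).FG :=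
    Module.Finite.iff_fg.1 (span_wed_finite W)
  have h1 : (Submodule.map₂ (Algebra.lsmul k k (Ω[K⁄k])).toLinearMap (W ^ n)
      (Submodule.span k {η | ∃ u ∈ W, ∃ v ∈ W, η = wed k u v})).FG := (hW.pow n).map₂ _ hS
  have h2 := Module.Finite.iff_fg.2 h1
  refine Submodule.finiteDimensional_of_le (S₂ := Submodule.map₂
    (Algebra.lsmul k k (Ω[K⁄k])).toLinearMap (W ^ n)
      (Submodule.span k {η | ∃ u ∈ W, ∃ v ∈ W, η = wed k u v})) ?_
  unfold MM
  exact Submodule.smul_le.2 fun r hr η hη =>
    Submodule.apply_mem_map₂ (Algebra.lsmul k k (Ω[K⁄k])).toLinearMap hr hη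

end

theorem mge : T_MGE := by
  intro k K _ _ _ W _ w n₀ hw hspan
  refine ⟨MM_finite W n₀, ?_⟩
  intro n hn
  induction n, hn using Nat.le_induction with
  | base =>
    intro η hη α hα σ hσ
    exact Submodule.subset_span ⟨α, hα, hσ, η, hη, rfl⟩
  | succ n hn ih =>
    intro η hη α hα σ hσ
    have h1 : MM W (n + 1) ≤ Submodule.span k (Set.range w) • MM W n := by
      unfold MM
      rw [← Submodule.smul_assoc]
      exact Submodule.smul_mono_left (pow_le_span W w n₀ hspan n hn)
    refine Submodule.smul_induction_on (p := fun η => mon w α • η ∈ FF w (MM W n₀) (n₀ + 2) σ)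
      (h1 hη) (fun r hr μ hμ => ?_) (fun x y hx hy => by rw [smul_add]; exact Submodule.add_mem _ hx hy)
    refine Submodule.span_induction
      (p := fun r _ => mon w α • r • μ ∈ FF w (MM W n₀) (n₀ + 2) σ) ?_ ?_ ?_ ?_ hr
    · rintro _ ⟨j, rfl⟩
      have h2 := ih μ hμ (α + Pi.single j 1) (by
        simp only [Pi.add_apply, Finset.sum_add_distrib, hα, Finset.sum_pi_single',
          Finset.mem_univ, if_true]
        push_cast
        ring) σ (by
        intro l hl
        have h3 := hσ l hl
        rw [Pi.add_apply]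
        have h4 : (0 : ℤ) ≤ (Pi.single j 1 : Fin 3 → ℤ) l := by
          by_cases h : l = j
          · subst h; simp
          · rw [Pi.single_eq_of_ne h]
        omega)
      rw [mon_add w (fun i => (hw i).1), mon_single, zpow_one, mul_smul] at h2
      exact h2
    · rw [zero_smul, smul_zero]
      exact Submodule.zero_mem _
    · intro x y _ _ hx hy
      rw [add_smul, smul_add]
      exact Submodule.add_mem _ hx hy
    · intro c x _ hx
      rw [smul_assoc, smul_comm (mon w α) c]
      exact Submodule.smul_mem _ c hx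

theorem cij (h1 : T_DUV) (h2 : T_MGE) : T_CIJ := by
  intro k K _ _ _ W _ w n₀ hw hspan i j n m a b ha hb
  have ha' : a * w i ^ (n + n₀) ∈ W ^ (n + n₀) := by
    have e : a * w i ^ (n + n₀) = a * w i ^ n * w i ^ n₀ := by rw [pow_add]; ring
    rw [e, pow_add]
    exact Submodule.mul_mem_mul ha (Submodule.pow_mem_pow W (hw i).2 n₀)
  have hb' : b * w j ^ (m + 1) ∈ W ^ (m + 1) := by
    have e : b * w j ^ (m + 1) = b * w j ^ m * w j := by rw [pow_succ]; ring
    rw [e, pow_succ]
    exact Submodule.mul_mem_mul hb (hw j).2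
  have hη := h1 k K W (w j) (hw j).2 (hw j).1 (m + 1) _ hb'
  rw [Nat.add_sub_cancel, mul_div_assoc, div_self (pow_ne_zero _ (hw j).1), mul_one] at hη
  set η := w j ^ (m + 1 + 1) • KaehlerDifferential.D k K b with hηd
  have h3 := (h2 k K W w n₀ hw hspan).2 (n + n₀ + m) (by omega) ((a * w i ^ (n + n₀)) • η)
    (smul_mem_MM W ha' hη) (Pi.single i (-((n + n₀ : ℕ) : ℤ)) + Pi.single j (-((m + 1 + 1 : ℕ) : ℤ)))
    (by
      simp only [Pi.add_apply, Finset.sum_add_distrib, Finset.sum_pi_single', Finset.mem_univ,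
        if_true]
      push_cast
      ring) {i, j} (by
      intro l hl
      rw [Finset.mem_insert, Finset.mem_singleton, not_or] at hl
      rw [Pi.add_apply, Pi.single_eq_of_ne hl.1, Pi.single_eq_of_ne hl.2, add_zero])
  rw [mon_add w (fun i => (hw i).1), mon_single, mon_single, zpow_neg, zpow_neg, zpow_natCast,
    zpow_natCast, hηd, smul_smul, smul_smul] at h3
  have h4 : (w i ^ (n + n₀))⁻¹ * (w j ^ (m + 1 + 1))⁻¹ * (a * w i ^ (n + n₀)) * w j ^ (m + 1 + 1)
      = a := by
    have e1 := pow_ne_zero (n + n₀) (hw i).1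
    have e2 := pow_ne_zero (m + 1 + 1) (hw j).1
    field_simp
  rw [h4] at h3
  exact h3

theorem lcf : T_LCF := by
  intro k K _ _ _ W w n₀ hw i
  unfold FF
  rw [Submodule.span_le]
  rintro _ ⟨α, hα, hσ, g, hg, rfl⟩
  have hnn : ∀ j, j ≠ i → 0 ≤ α j := fun j hj => hσ j (by simpa using hj)
  -- the exponents
  set N : ℕ := ∑ j ∈ Finset.univ.erase i, (α j).toNat with hN
  have hαi : α i = -((n₀ + N + 2 : ℕ) : ℤ) := by
    have h1 : ∑ j, α j = α i + ∑ j ∈ Finset.univ.erase i, α j :=
      (Finset.add_sum_erase Finset.univ α (Finset.mem_univ i)).symm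
    have h2 : ∑ j ∈ Finset.univ.erase i, α j = (N : ℤ) := by
      rw [hN, Nat.cast_sum]
      exact Finset.sum_congr rfl fun j hj => (Int.toNat_of_nonneg (hnn j (Finset.ne_of_mem_erase hj))).symm
    rw [h1, h2] at hα
    push_cast
    linarith
  set c : K := ∏ j ∈ Finset.univ.erase i, w j ^ (α j).toNat with hc
  have hmon : mon w α = (w i ^ (n₀ + N + 2))⁻¹ * c := by
    unfold mon
    rw [← Finset.mul_prod_erase Finset.univ _ (Finset.mem_univ i), hαi, zpow_neg, zpow_natCast]
    congr 1
    refine Finset.prod_congr rfl fun j hj => ?_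
    rw [← zpow_natCast, Int.toNat_of_nonneg (hnn j (Finset.ne_of_mem_erase hj))]
  have hcW : c ∈ W ^ N := by
    rw [hc, hN]
    clear_value c
    clear hmon
    clear hαi
    clear_value N
    clear hc
    generalize Finset.univ.erase i = T
    induction T using Finset.induction_on with
    | empty =>
      rw [Finset.prod_empty, Finset.sum_empty, pow_zero]
      exact Submodule.one_le.1 le_rfl
    | insert l T hl ih =>
      rw [Finset.prod_insert hl, Finset.sum_insert hl, pow_add]
      exact Submodule.mul_mem_mul (Submodule.pow_mem_pow W (hw l).2 _) ih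
  change mon w α • g ∈ LocF W (w i)
  refine Submodule.smul_induction_on (p := fun g => mon w α • g ∈ LocF W (w i))
    hg (fun b hb s hs => ?_) (fun x y hx hy => by rw [smul_add]; exact Submodule.add_mem _ hx hy)
  refine Submodule.span_induction
    (p := fun s _ => mon w α • b • s ∈ LocF W (w i)) ?_ ?_ ?_ ?_ hs
  · rintro _ ⟨u, hu, v, hv, rfl⟩
    refine Submodule.subset_span ⟨n₀ + N, b * c, ?_, u, hu, v, hv, ?_⟩
    · rw [pow_add]
      exact Submodule.mul_mem_mul hb hcW
    · rw [smul_smul, hmon]
      congr 1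
      field_simp
  · rw [smul_zero, smul_zero]
    exact Submodule.zero_mem _
  · intro x y _ _ hx hy
    rw [smul_add, smul_add]
    exact Submodule.add_mem _ hx hy
  · intro c' x _ hx
    rw [smul_comm b c', smul_comm (mon w α) c']
    exact Submodule.smul_mem _ c' hx

end Pool.Agent.H88.FRM
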